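import Pool.Agent.LE.StmtsQZ
import Pool.Agent.Helper38_LQF.OUT
import Pool.Agent.Helper5_LQF.GOD

/-!
# Squad LQZ, OUT: the result at the final time
-/

set_option autoImplicit false

open MeasureTheory ProbabilityTheory

open scoped ENNReal BigOperators NNReal Matrix

noncomputable section

namespace Pool.Agent.LE.QZ.H13

open Pool.Agent.Anderson hiding box mem_box card_box
open Pool.Agent.Loc Pool.Agent.Mob Pool.Agent.Helper54.Bal
  Pool.Agent.Helper96.EXP Pool.Agent.BED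
open Pool.Agent.LE.MN Pool.Agent.LE.CL Pool.Agent.LE.IR Pool.Agent.LE.QD Pool.Agent.LE.QF
open Pool.Agent.LE.QF.H38
open Pool.Agent.LE.QF.H5 (lt_one_of_pow_sum)

/-- OUT -/
theorem out (god : GodStmt) (wab : WabStmt) (nnu : NnuStmt) : OutStmt := by
  intro c₁ C₁ hc₁ hC₁
  obtain ⟨c₀, C₀, h0, h0', hC₀, key⟩ := god c₁ C₁ hc₁ hC₁
  have hC₀' : 0 < C₀ := by linarith
  refine ⟨min c₀ (c₁ / (2 * C₀)), C₁ * (C₀ + 1), lt_min h0 (by positivity),
    (min_le_left _ _).trans h0', by nlinarith, ?_⟩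
  intro d M _ D V had hU
  have had' : Adm D c₁ C₁ c₀ :=
    { hT := had.hT
      hm := had.hm
      hfix := had.hfix
      hδ := ⟨had.hδ.1, had.hδ.2.trans (min_le_left _ _)⟩
      hk := ⟨had.hk.1, had.hk.2.1.trans (min_le_left _ _), had.hk.2.2⟩
      he := had.he
      hj := had.hj
      h0 := had.h0
      hN := had.hN
      hY := had.hY
      hL := had.hL
      hS := had.hS
      hϖ := had.hϖ
      hW := had.hW
      h6 := had.h6 }
  obtain ⟨hT0, hη0, -, -⟩ := had.hT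
  have G := key d M D (D.T, V) had' hT0.le le_rfl hU
  have hkp : D.kp D.T = D.η := by
    unfold Dat.kp
    rw [sub_self, zero_mul, add_zero]
  have hzt : D.zt D.T = ⟨D.E, D.η⟩ := by
    unfold Dat.zt
    rw [sub_self, Complex.ofReal_zero, zero_mul, add_zero]
  have hm1 : c₁ ≤ D.m.im := had.hm.1
  have hm2 : D.m.im ≤ C₁ := had.hm.2
  have hm0 : 0 < D.m.im := by linarith
  have hta : D.ta D.T = D.η / D.m.im := by
    unfold Dat.ta
    rw [hkp]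
  have hGq : D.G (D.T, V) = rs V ⟨D.E, D.η⟩ := by
    unfold Dat.G
    rw [hzt]
  have hδ0 : 0 < D.δ := had.hδ.1
  have hδ1 : D.δ ≤ c₁ / (2 * C₀) :=
    had.hδ.2.trans (min_le_right _ _)
  have hδ2 : C₀ * D.δ ≤ c₁ / 2 := by
    calc C₀ * D.δ ≤ C₀ * (c₁ / (2 * C₀)) := mul_le_mul_of_nonneg_left hδ1 hC₀'.le
      _ = c₁ / 2 := by field_simp
  have hkp0 : 0 < D.kp (D.T, V).1 := by
    rw [show (D.T, V).1 = D.T from rfl, hkp]
    exact hη0
  obtain ⟨u1, u2, u3, u4, u5, u6⟩ := nnu d M D c₁ C₁ c₀ (D.T, V) hc₁ had' hkp0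
  have hU' : D.U1 (D.T, V) + D.U2 (D.T, V) + D.U3 (D.T, V) + D.U4 (D.T, V) + D.U5 (D.T, V) +
    D.U6 (D.T, V) < 1 := hU
  refine ⟨?_, ?_, ?_, ?_⟩
  · intro x
    have h1 := G.hG.hμ x
    unfold Dat.mu at h1
    rw [hGq] at h1
    have h2 := Complex.abs_im_le_norm (rs V ⟨D.E, D.η⟩ x x - D.m)
    rw [Complex.sub_im] at h2
    have h3 := neg_abs_le ((rs V ⟨D.E, D.η⟩ x x).im - D.m.im)
    linarith
  · intro x y
    have hXh : ∀ a b, ‖D.Xh (D.T, V) a b‖ ≤ D.δ := by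
      intro a b
      have h1 : ∑ a, ∑ b, (‖D.Xh (D.T, V) a b‖ ^ 2 / D.δ ^ 2) ^ D.j < 1 := by
        have : D.U2 (D.T, V) < 1 := by linarith
        exact this
      have h3 : ∑ b, (‖D.Xh (D.T, V) a b‖ ^ 2 / D.δ ^ 2) ^ D.j < 1 := by
        refine lt_of_le_of_lt ?_ h1
        exact Finset.single_le_sum
          (f := fun a => ∑ b, (‖D.Xh (D.T, V) a b‖ ^ 2 / D.δ ^ 2) ^ D.j)
          (fun a _ => Finset.sum_nonneg fun b _ => by positivity) (Finset.mem_univ a)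
      have h2 := lt_one_of_pow_sum _ _ (fun b => by positivity) h3 b
      rw [div_lt_one (by positivity)] at h2
      exact (abs_le_of_sq_le_sq' (by linarith : ‖D.Xh (D.T, V) a b‖ ^ 2 ≤ D.δ ^ 2) hδ0.le).2
    have hta0 : 0 < D.ta D.T := by
      rw [hta]
      positivity
    have hC12 : C₀ * D.δ ≤ 1 / 2 := G.hG.hδ.2.1
    have hrow : ∀ a, D.ta D.T * ∑ b, ‖D.G (D.T, V) a b‖ ^ 2 ≤ 3 / 2 := by
      intro a
      have h1 := (abs_le.1 (G.hG.hk a)).2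
      have h2 : D.ta (D.T, V).1 * ∑ b, ‖D.G (D.T, V) a b‖ ^ 2 - 1 ≤ C₀ * D.δ := h1
      have h3 : D.ta D.T * ∑ b, ‖D.G (D.T, V) a b‖ ^ 2 - 1 ≤ C₀ * D.δ := h2
      linarith
    have hGD : ‖GD (D.G (D.T, V)) (D.ph (D.T, V)) x y‖ ≤
        D.δ * ∑ c, (‖D.G (D.T, V) x c‖ ^ 2 + ‖D.G (D.T, V) y c‖ ^ 2) / 2 := by
      have h1 : GD (D.G (D.T, V)) (D.ph (D.T, V)) x y =
          ∑ c, D.G (D.T, V) x c * D.ph (D.T, V) c * D.G (D.T, V) c y := by
        unfold GD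
        rw [Matrix.mul_apply]
        refine Finset.sum_congr rfl fun c _ => ?_
        rw [Matrix.mul_diagonal]
      rw [h1, Finset.mul_sum]
      refine (norm_sum_le _ _).trans (Finset.sum_le_sum fun c _ => ?_)
      rw [norm_mul, norm_mul, G.hG.hs c y]
      have h2 := G.hφ c
      have h3 : ‖D.G (D.T, V) x c‖ * ‖D.G (D.T, V) y c‖ ≤
          (‖D.G (D.T, V) x c‖ ^ 2 + ‖D.G (D.T, V) y c‖ ^ 2) / 2 := by
        nlinarith [sq_nonneg (‖D.G (D.T, V) x c‖ - ‖D.G (D.T, V) y c‖)]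
      calc ‖D.G (D.T, V) x c‖ * ‖D.ph (D.T, V) c‖ * ‖D.G (D.T, V) y c‖
          = ‖D.ph (D.T, V) c‖ * (‖D.G (D.T, V) x c‖ * ‖D.G (D.T, V) y c‖) := by ring
        _ ≤ D.δ * ((‖D.G (D.T, V) x c‖ ^ 2 + ‖D.G (D.T, V) y c‖ ^ 2) / 2) :=
            mul_le_mul h2 h3 (by positivity) hδ0.le
    have hGD2 : D.ta D.T * ‖GD (D.G (D.T, V)) (D.ph (D.T, V)) x y‖ ≤ 3 / 2 * D.δ := by
      have h1 := mul_le_mul_of_nonneg_left hGD hta0.le
      have h2 : D.ta D.T * (D.δ * ∑ c, (‖D.G (D.T, V) x c‖ ^ 2 + ‖D.G (D.T, V) y c‖ ^ 2) / 2) =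
          D.δ * ((D.ta D.T * ∑ c, ‖D.G (D.T, V) x c‖ ^ 2 +
            D.ta D.T * ∑ c, ‖D.G (D.T, V) y c‖ ^ 2) / 2) := by
        rw [← Finset.sum_div, Finset.sum_add_distrib]
        ring
      rw [h2] at h1
      have h3 := hrow x
      have h4 := hrow y
      have h5 : D.δ * ((D.ta D.T * ∑ c, ‖D.G (D.T, V) x c‖ ^ 2 +
            D.ta D.T * ∑ c, ‖D.G (D.T, V) y c‖ ^ 2) / 2) ≤ D.δ * (3 / 2) :=
        mul_le_mul_of_nonneg_left (by linarith) hδ0.le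
      linarith
    have e : rs V ⟨D.E, D.η⟩ x y - D.G0 x y = D.Xh (D.T, V) x y -
        (D.ta D.T : ℂ) * GD (D.G (D.T, V)) (D.ph (D.T, V)) x y := by
      have h1 : D.Xh (D.T, V) x y = D.G (D.T, V) x y +
          (D.ta D.T : ℂ) * GD (D.G (D.T, V)) (D.ph (D.T, V)) x y - D.G0 x y := rfl
      rw [h1, hGq]
      ring
    rw [e]
    refine (norm_sub_le _ _).trans ?_
    rw [norm_mul, Complex.norm_real, Real.norm_eq_abs, abs_of_pos hta0]
    have h1 := hXh x y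
    linarith
  · intro C'
    obtain ⟨τ, hτ⟩ : ∃ τ, τ = D.ta D.T := ⟨_, rfl⟩
    have hτ0 : 0 < τ := by
      rw [hτ, hta]
      positivity
    have hcard : (Fintype.card (Tor d M) : ℝ) = (M : ℝ) ^ d := by
      rw [Fintype.card_fun, ZMod.card, Fintype.card_fin, Nat.cast_pow]
    -- the row sums
    have hk : ∀ a, τ * ∑ b, KK (D.G (D.T, V)) a b ≤ 1 + C₀ * D.δ := by
      intro a
      have h1 := (abs_le.1 (G.hG.hk a)).2
      have h2 : τ * ∑ b, KK (D.G (D.T, V)) a b = D.ta D.T * ∑ b, ‖D.G (D.T, V) a b‖ ^ 2 := by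
        rw [hτ]
        rfl
      rw [h2]
      linarith
    -- the form
    obtain ⟨f, hf⟩ : ∃ f : Tor d M → ℝ, f = fun a => if a ∈ C' then 1 else 0 := ⟨_, rfl⟩
    have hf2 : ∑ a, f a ^ 2 = C'.card := by
      rw [hf]
      exact sum_ind C'
    have hX : qf (D.X (D.T, V)) f = τ * (∑ a ∈ C', ∑ b, KK (D.G (D.T, V)) a b) -
        τ * mss V ⟨D.E, D.η⟩ C' := by
      have h1 : D.X (D.T, V) = τ • Dl (KK (D.G (D.T, V))) := by
        rw [hτ]
        rfl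
      rw [h1, qf_smul, hf, qf_ind, sum_Dl, mul_sub]
      congr 1
      rw [hGq]
      rfl
    have hP : qf (P0 (Tor d M)) f = (C'.card : ℝ) ^ 2 / (M : ℝ) ^ d := by
      rw [hf, qf_ind]
      unfold P0
      rw [hcard, Finset.sum_const, Finset.sum_const, nsmul_eq_mul, nsmul_eq_mul]
      ring
    have hS : qf D.S f = ∑ x ∈ C', ∑ y ∈ C', D.S x y := by
      rw [hf, qf_ind]
    have hA := G.hA f
    rw [qf_add, qf_add, qf_smul, qf_one, hf2, hX, hP] at hA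
    obtain ⟨he1, he2, he3⟩ := had.he
    have he0 : 1 < D.e₀ := lt_of_lt_of_le he1 he2
    obtain ⟨hs1, hs2, hs3, hs4⟩ := had.hS
    have hu := (wab (Tor d M) 0 D.S D.e₀ 1 τ 1 1 (fun _ _ => rfl)
      (fun f => by unfold Pool.Agent.LE.QF.qf; simp) hs1 hs2 (by linarith) one_pos hτ0.le one_pos le_rfl).1
    have hinv := qf_inv (by linarith : (0 : ℝ) < D.e₀) hτ0.le hs1 hs2 hu f
    have hAe : D.A D.T = D.e₀ • (1 : Matrix (Tor d M) (Tor d M) ℝ) + τ • D.S := by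
      rw [hτ]
      rfl
    rw [← hAe, hf2, hS] at hinv
    have hsum : τ * ∑ a ∈ C', ∑ b, KK (D.G (D.T, V)) a b ≤ (1 + C₀ * D.δ) * C'.card := by
      rw [Finset.mul_sum]
      calc ∑ a ∈ C', τ * ∑ b, KK (D.G (D.T, V)) a b ≤ ∑ _a ∈ C', (1 + C₀ * D.δ) :=
            Finset.sum_le_sum fun a _ => hk a
        _ = (1 + C₀ * D.δ) * C'.card := by
            rw [Finset.sum_const, nsmul_eq_mul]
            ring
    have hSn : 0 ≤ ∑ x ∈ C', ∑ y ∈ C', D.S x y := by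
      rw [← hS]
      exact hs2 f
    have hϖ : D.ϖ ≤ D.δ := had.hϖ.2.1
    have hc0 : (0 : ℝ) ≤ C'.card := Nat.cast_nonneg _
    have hMd : 0 < (M : ℝ) ^ d := by
      have : 0 < (M : ℝ) := Nat.cast_pos.2 (Nat.pos_of_ne_zero (NeZero.ne M))
      positivity
    -- the numbers
    have n1 : 1 - 1 / D.e₀ ≤ D.e₀ - 1 := by
      rw [sub_le_sub_iff]
      have h1 : 0 ≤ (D.e₀ - 1) ^ 2 / D.e₀ := by positivity
      have h2 : (D.e₀ - 1) ^ 2 / D.e₀ = D.e₀ + 1 / D.e₀ - 2 := by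
        field_simp
        ring
      linarith
    have n2' : τ / D.e₀ ^ 2 * ∑ x ∈ C', ∑ y ∈ C', D.S x y ≤
        τ * ∑ x ∈ C', ∑ y ∈ C', D.S x y := by
      refine mul_le_mul_of_nonneg_right ?_ hSn
      refine div_le_self hτ0.le ?_
      nlinarith
    have n3 : D.ϖ * (C'.card : ℝ) ≤ D.δ * C'.card := mul_le_mul_of_nonneg_right hϖ hc0
    have n4 : (1 - 1 / D.e₀) * (C'.card : ℝ) ≤ (D.e₀ - 1) * C'.card :=
      mul_le_mul_of_nonneg_right n1 hc0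
    have n5 : τ * mss V ⟨D.E, D.η⟩ C' ≤
        ((C₀ + 1) * D.δ + (D.e₀ - 1) + C'.card / (M : ℝ) ^ d) * C'.card +
          τ * ∑ x ∈ C', ∑ y ∈ C', D.S x y := by
      have h1 : (C'.card : ℝ) ^ 2 / (M : ℝ) ^ d = C'.card / (M : ℝ) ^ d * C'.card := by ring
      rw [h1] at hA
      nlinarith
    have n6 : ((C₀ + 1) * D.δ + (D.e₀ - 1) + C'.card / (M : ℝ) ^ d) * C'.card ≤
        ((C₀ + 1) * (D.δ + (D.e₀ - 1) + C'.card / (M : ℝ) ^ d)) * C'.card := by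
      refine mul_le_mul_of_nonneg_right ?_ hc0
      have h1 : 0 ≤ C₀ * (D.e₀ - 1) := mul_nonneg hC₀'.le (by linarith)
      have h2 : 0 ≤ C₀ * (C'.card / (M : ℝ) ^ d) := by positivity
      linarith
    have n7 : D.m.im / D.η * τ = 1 := by
      rw [hτ, hta]
      field_simp
    have n8 : mss V ⟨D.E, D.η⟩ C' ≤ D.m.im / D.η *
        (((C₀ + 1) * (D.δ + (D.e₀ - 1) + C'.card / (M : ℝ) ^ d)) * C'.card) +
          ∑ x ∈ C', ∑ y ∈ C', D.S x y := by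
      have h1 := mul_le_mul_of_nonneg_left (n5.trans (add_le_add_left n6 _))
        (by positivity : 0 ≤ D.m.im / D.η)
      rw [← mul_assoc, n7, one_mul, mul_add, ← mul_assoc (D.m.im / D.η) τ, n7, one_mul] at h1
      exact h1
    refine n8.trans (add_le_add_left ?_ _)
    have h1 : 0 ≤ ((C₀ + 1) * (D.δ + (D.e₀ - 1) + C'.card / (M : ℝ) ^ d)) * C'.card := by
      have : 0 ≤ D.e₀ - 1 := by linarith
      positivity
    calc D.m.im / D.η * (((C₀ + 1) * (D.δ + (D.e₀ - 1) + C'.card / (M : ℝ) ^ d)) * C'.card)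
        ≤ C₁ / D.η * (((C₀ + 1) * (D.δ + (D.e₀ - 1) + C'.card / (M : ℝ) ^ d)) * C'.card) := by
          refine mul_le_mul_of_nonneg_right ?_ h1
          exact div_le_div_of_nonneg_right hm2 hη0.le
      _ = C₁ * (C₀ + 1) / D.η * (D.δ + (D.e₀ - 1) + C'.card / (M : ℝ) ^ d) * C'.card := by
          ring
  · have h1 : D.U6 (D.T, V) = D.lam * (D.η / D.m.im) ^ 2 *
        (qf (Dl (KK (rs V ⟨D.E, D.η⟩))) D.f₁ + qf (Dl (KK (rs V ⟨D.E, D.η⟩))) D.f₂) := by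
      have h2 : D.U6 (D.T, V) = D.lam * (D.ta D.T *
          (qf (D.ta D.T • Dl (KK (D.G (D.T, V)))) D.f₁ +
            qf (D.ta D.T • Dl (KK (D.G (D.T, V)))) D.f₂)) := rfl
      rw [h2, qf_smul, qf_smul, hta, hGq]
      ring
    rw [← h1]
    linarith

end Pool.Agent.LE.QZ.H13
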