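import Pool.Agent.LE.StmtsQZ

/-!
# Row TOF of table lqz: the torus
-/

set_option autoImplicit false

open MeasureTheory ProbabilityTheory Function Filter

open scoped ENNReal BigOperators Topology NNReal ComplexOrder Matrix

noncomputable section

namespace Pool.Agent.LE.QZ.H13

open Pool.Agent.Anderson hiding box mem_box card_box
open Pool.Agent.Loc Pool.Agent.Mob Pool.Agent.Helper54.Bal
  Pool.Agent.Helper96.EXP Pool.Agent.BED
open Pool.Agent.LE.MN Pool.Agent.LE.CL Pool.Agent.LE.IR Pool.Agent.LE.QD Pool.Agent.LE.QF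

/-- from eventually to a threshold -/
theorem small_of_ev {P : ℝ → Prop} (h : ∀ᶠ s in 𝓝[>] (0 : ℝ), P s) :
    ∃ c : ℝ, 0 < c ∧ ∀ s, 0 < s → s ≤ c → P s := by
  obtain ⟨u, hu, hs⟩ := mem_nhdsGT_iff_exists_Ioc_subset.1 h
  exact ⟨u, hu, fun s h0 h1 => hs ⟨h0, h1⟩⟩

theorem ev_rpow {r ρ K : ℝ} (hr : 0 < r) (hρ : 0 < ρ) :
    ∀ᶠ s in 𝓝[>] (0 : ℝ), K * s ^ r ≤ ρ := by
  have h1 : Tendsto (fun s : ℝ => K * s ^ r) (𝓝[>] 0) (𝓝 (K * 0)) := by
    apply Tendsto.const_mul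
    have h2 : Tendsto (fun s : ℝ => s ^ r) (𝓝 0) (𝓝 ((0 : ℝ) ^ r)) :=
      (Real.continuousAt_rpow_const 0 r (Or.inr hr.le)).tendsto
    rw [Real.zero_rpow hr.ne'] at h2
    exact h2.mono_left nhdsWithin_le_nhds
  rw [mul_zero] at h1
  exact (h1.eventually (gt_mem_nhds hρ)).mono fun s hs => hs.le

theorem ev_exp {θ B K : ℝ} (hθ : 0 < θ) :
    ∀ᶠ s in 𝓝[>] (0 : ℝ), K * (s ^ (-B) * Real.exp (-(s ^ (-θ) / 8))) ≤ 1 := by
  have h1 : Tendsto (fun s : ℝ => s ^ (-θ)) (𝓝[>] 0) atTop :=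
    tendsto_rpow_neg_nhdsGT_zero (by linarith)
  have h2 := (tendsto_rpow_mul_exp_neg_mul_atTop_nhds_zero (B / θ) (1 / 8) (by norm_num)).comp h1
  have h3 := h2.const_mul K
  rw [mul_zero] at h3
  have h4 := h3.eventually (gt_mem_nhds (zero_lt_one))
  filter_upwards [h4, self_mem_nhdsWithin] with s hs hs0
  have hs0' : (0 : ℝ) < s := hs0
  have e1 : (s ^ (-θ)) ^ (B / θ) = s ^ (-B) := by
    rw [← Real.rpow_mul hs0'.le]
    congr 1
    field_simp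
  have e2 : K * (s ^ (-B) * Real.exp (-(s ^ (-θ) / 8))) =
      K * ((s ^ (-θ)) ^ (B / θ) * Real.exp (-(1 / 8) * s ^ (-θ))) := by
    rw [e1]
    congr 3
    ring
  rw [e2]
  exact hs.le

theorem adm_mono {d M : ℕ} [NeZero M] {D : Dat d M} {c₁ C₁ c₀ c₀' : ℝ}
    (h : Adm D c₁ C₁ c₀) (hc : c₀ ≤ c₀') : Adm D c₁ C₁ c₀' :=
  { h with
    hδ := ⟨h.hδ.1, h.hδ.2.trans hc⟩
    hk := ⟨h.hk.1, h.hk.2.1.trans hc, h.hk.2.2⟩ }

/-- **TOF** -/
theorem tof (hIni : IniStmt) (hUpr : UprStmt) (hOut : OutStmt) (hMom : MomStmt)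
    (hRal : RalStmt) : TofStmt := by
  intro d a ε hd ha hε hε1
  obtain ⟨θ, c₁, C₁, hθ, hθε, hc₁, hC₁, hI⟩ := hIni d a ε hd ha hε hε1
  have hθ1 : θ ≤ 1 / 100 := by linarith
  obtain ⟨cU, CU, hcU, -, hCU, hU⟩ := hUpr c₁ C₁ hc₁ hC₁
  obtain ⟨cO, CO, hcO, -, hCO, hO⟩ := hOut c₁ C₁ hc₁ hC₁
  obtain ⟨cI, CI, hcI, hcI4, hCI, hI'⟩ := hI (min cU cO) (lt_min hcU hcO)
  have hd3 : (3 : ℝ) ≤ d := by exact_mod_cast hd
  have hCU0 : 0 < CU := by linarith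
  have hCI0 : 0 < CI := by linarith
  have hCO0 : 0 < CO := by linarith
  have hC₁0 : 0 < C₁ := by linarith
  -- the thresholds
  obtain ⟨t1, ht1, hs1⟩ := small_of_ev ((ev_rpow (K := (d + 1) * CU * CI) (r := 3 * θ) (ρ := 1)
    (by linarith) (by norm_num)).and
    (ev_rpow (K := 1) (r := 2 * θ) (ρ := 7 / 8) (by linarith) (by norm_num)))
  obtain ⟨t2, ht2, hs2⟩ := small_of_ev (ev_exp (θ := 4 * θ) (B := 2)
    (K := 3 * CU * (2 + CI) * (d + 1)) (by linarith))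
  obtain ⟨t3, ht3, hs3⟩ := small_of_ev (ev_rpow (K := 3 * CO + 4) (r := 3 * θ) (ρ := 1)
    (by linarith) (by norm_num))
  refine ⟨θ, min (min cI (c₁ / 2)) (min t1 (min t2 t3)), 9 + C₁ + C₁ ^ 2 * CI, hθ, hθ1, ?_, ?_,
    ?_, ?_⟩
  · exact lt_min (lt_min hcI (by linarith)) (lt_min ht1 (lt_min ht2 ht3))
  · exact (min_le_left _ _).trans ((min_le_left _ _).trans hcI4)
  · have : 0 ≤ C₁ ^ 2 * CI := by positivity
    linarith
  intro M _ v σ E η hv hσ hσc hE hM1 hM2 hηM hη2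
  obtain ⟨s, hs⟩ : ∃ s, s = |σ| := ⟨_, rfl⟩
  rw [← hs] at hσc hM1 hM2 hηM hη2 ⊢
  have hs0 : 0 < s := by rw [hs]; exact abs_pos.2 hσ
  have hc1 : s ≤ cI := hσc.trans ((min_le_left _ _).trans (min_le_left _ _))
  have hc3 : s ≤ t1 := hσc.trans ((min_le_right _ _).trans (min_le_left _ _))
  have hc4 : s ≤ t2 := hσc.trans ((min_le_right _ _).trans ((min_le_right _ _).trans
    (min_le_left _ _)))
  have hc5 : s ≤ t3 := hσc.trans ((min_le_right _ _).trans ((min_le_right _ _).trans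
    (min_le_right _ _)))
  obtain ⟨hn1, hn2⟩ := hs1 s hs0 hc3
  have hn3 := hs2 s hs0 hc4
  have hn4 := hs3 s hs0 hc5
  have hs1' : s ≤ 1 := by linarith
  obtain ⟨m, hm1, hm2, hm3, hID⟩ :=
    hI' M σ E η hσ (by rw [← hs]; exact hc1) hE (by rw [← hs]; exact hM1)
      (by rw [← hs]; exact hM2) (by rw [← hs]; exact hηM) (by rw [← hs]; exact hη2)
  have hMpos : (0 : ℝ) < M := by
    exact_mod_cast Nat.pos_of_ne_zero (NeZero.ne M)
  have hMd : 0 < (M : ℝ) ^ d := by positivity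
  have hη0 : 0 < η := by
    have h1 : 0 < η * (M : ℝ) ^ d := (Real.rpow_pos_of_pos hs0 _).trans_le hηM
    exact (pos_iff_pos_of_mul_pos h1).2 hMd
  have hη3 : η ≤ 1 := hη2.trans (pow_le_one₀ hs0.le hs1')
  refine ⟨m, ?_, ?_, hm3, ?_⟩
  · exact ((min_le_left _ _).trans (min_le_right _ _)).trans (by linarith)
  · have : 0 ≤ C₁ ^ 2 * CI := by positivity
    linarith
  intro i ξ hξ
  obtain ⟨D, hAdm, hDE, hDη, hDT, hDm, hDf₁, hDf₂, hDz, hDl, hDM, hDa, hDp, hDδ, hDe, hDb, hDS⟩ :=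
    hID i ξ hξ
  rw [← hs] at hDa hDp hDδ hDe hDb hDS
  have hξ0 : 0 < ξ := by linarith
  have hσ2 : 0 < σ ^ 2 := by positivity
  have hsθ0' : s ^ (4 * θ) = s ^ (3 * θ) * s ^ θ := by
    rw [← Real.rpow_add hs0]
    congr 1
    ring
  have hsθp : 0 < s ^ θ := Real.rpow_pos_of_pos hs0 _
  have hs3θ : 0 ≤ s ^ (3 * θ) := Real.rpow_nonneg hs0.le _
  have hzt : D.zt 0 = ⟨E, η⟩ + (σ : ℂ) ^ 2 * m := by
    unfold Dat.zt
    rw [hDE, hDη, hDT, hDm, sub_zero]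
    push_cast
    rfl
  have hzim : 0 < (⟨E, η⟩ : ℂ).im := hη0
  subst hDE
  subst hDη
  -- the event
  have hsub : {V | ¬ ((∀ x, min (min cI (c₁ / 2)) (min t1 (min t2 t3)) ≤
        (rs V ⟨D.E, D.η⟩ x x).im) ∧
      (∀ x y, ‖rs V ⟨D.E, D.η⟩ x y -
        rs (0 : Tor d M → ℝ) (⟨D.E, D.η⟩ + (σ : ℂ) ^ 2 * m) x y‖ ≤ s ^ θ) ∧
      (∀ C' : Finset (Tor d M), (C'.card : ℝ) ≤ (s ^ (ε - 1) / Real.sqrt D.η) ^ d →
        (C'.card : ℝ) ≤ s ^ ε * (M : ℝ) ^ d →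
        mss V ⟨D.E, D.η⟩ C' ≤ s ^ θ * C'.card / D.η) ∧
      ∑ x, ∑ y, ‖rs V ⟨D.E, D.η⟩ x y‖ ^ 2 * (((x - y) i).valMinAbs : ℝ) ^ 2 ≤
        (9 + C₁ + C₁ ^ 2 * CI) * ξ * (M : ℝ) ^ d / (σ ^ 2 * D.η ^ 2))} ⊆
      {V | 1 ≤ D.U (D.T, V)} := by
    intro V hV
    rw [Set.mem_ofPred_eq] at hV ⊢
    by_contra hlt
    push Not at hlt
    apply hV
    obtain ⟨h1, h1b, h2, h2b⟩ := hO d M D V (adm_mono hAdm (min_le_right _ _)) hlt
    refine ⟨fun x => ?_, fun x y => ?_, fun C' hC' hC'' => ?_, ?_⟩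
    · exact ((min_le_left _ _).trans (min_le_right _ _)).trans (h1 x)
    · have h3 := h1b x y
      have h4 : D.G0 x y = rs (0 : Tor d M → ℝ) (⟨D.E, D.η⟩ + (σ : ℂ) ^ 2 * m) x y := by
        unfold Dat.G0
        rw [hzt]
      rw [h4] at h3
      refine h3.trans ?_
      have h5 : 4 * s ^ (3 * θ) ≤ 1 := by
        have : 0 ≤ 3 * CO * s ^ (3 * θ) := by positivity
        linarith
      calc 4 * D.δ ≤ 4 * s ^ (4 * θ) := by linarith
        _ = (4 * s ^ (3 * θ)) * s ^ θ := by rw [hsθ0']; ring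
        _ ≤ 1 * s ^ θ := mul_le_mul_of_nonneg_right h5 hsθp.le
        _ = s ^ θ := one_mul _
    · have h3 := h2 C'
      have h4 := hDS C' hC' hC''
      have hcard : (0 : ℝ) ≤ C'.card := Nat.cast_nonneg _
      have h5 : (C'.card : ℝ) / (M : ℝ) ^ d ≤ s ^ (4 * θ) := by
        rw [div_le_iff₀ hMd]
        refine hC''.trans (mul_le_mul_of_nonneg_right ?_ hMd.le)
        exact Real.rpow_le_rpow_of_exponent_ge hs0 hs1' (by linarith)
      have h8 : D.δ + (D.e₀ - 1) + (C'.card : ℝ) / (M : ℝ) ^ d ≤ 3 * s ^ (4 * θ) := by linarith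
      have h9 : CO / D.η * (D.δ + (D.e₀ - 1) + (C'.card : ℝ) / (M : ℝ) ^ d) * C'.card ≤
          CO / D.η * (3 * s ^ (4 * θ)) * C'.card := by
        apply mul_le_mul_of_nonneg_right _ hcard
        exact mul_le_mul_of_nonneg_left h8 (by positivity)
      have h10 : CO / D.η * (3 * s ^ (4 * θ)) * C'.card + s ^ (4 * θ) * C'.card / D.η =
          ((3 * CO + 1) * s ^ (3 * θ)) * (s ^ θ * C'.card / D.η) := by
        rw [hsθ0']
        field_simp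
      have h10b : (3 * CO + 1) * s ^ (3 * θ) ≤ 1 := by
        have : (3 * CO + 1) * s ^ (3 * θ) ≤ (3 * CO + 4) * s ^ (3 * θ) :=
          mul_le_mul_of_nonneg_right (by linarith) hs3θ
        linarith
      have h11 : ((3 * CO + 1) * s ^ (3 * θ)) * (s ^ θ * C'.card / D.η) ≤
          1 * (s ^ θ * C'.card / D.η) := by
        apply mul_le_mul_of_nonneg_right h10b
        positivity
      rw [one_mul] at h11
      linarith
    · -- the second moment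
      obtain ⟨S2, hS2⟩ : ∃ S2, S2 = ∑ x, ∑ y, ‖rs V ⟨D.E, D.η⟩ x y‖ ^ 2 *
          (((x - y) i).valMinAbs : ℝ) ^ 2 := ⟨_, rfl⟩
      rw [← hS2]
      have hS0 : 0 ≤ S2 := by
        rw [hS2]
        exact Finset.sum_nonneg fun x _ => Finset.sum_nonneg fun y _ => by positivity
      have hsy := (hRal d M V ⟨D.E, D.η⟩ hzim).2.1
      have h3 := hMom d M (KK (rs V ⟨D.E, D.η⟩)) i
        (fun a b => by show ‖_‖ ^ 2 = ‖_‖ ^ 2; rw [hsy a b]) (fun a b => by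
          show 0 ≤ ‖_‖ ^ 2; positivity)
      have h4 : 8 / (M : ℝ) ^ 2 * S2 ≤ qf (Dl (KK (rs V ⟨D.E, D.η⟩))) D.f₁ +
          qf (Dl (KK (rs V ⟨D.E, D.η⟩))) D.f₂ := by
        rw [hS2, hDf₁, hDf₂]
        exact h3
      have him0 : 0 < D.m.im := by
        have := hAdm.hm.1
        linarith
      have him1 : D.m.im ≤ C₁ := hAdm.hm.2
      have h5 : D.lam * (D.η / D.m.im) ^ 2 * (8 / (M : ℝ) ^ 2 * S2) ≤ 1 :=
        (mul_le_mul_of_nonneg_left h4 (by positivity)).trans h2b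
      have h6 : D.lam * (8 * D.η ^ 2) * S2 ≤ D.m.im ^ 2 * (M : ℝ) ^ 2 := by
        have e : D.lam * (D.η / D.m.im) ^ 2 * (8 / (M : ℝ) ^ 2 * S2) =
            (D.lam * (8 * D.η ^ 2) * S2) / (D.m.im ^ 2 * (M : ℝ) ^ 2) := by
          field_simp
        rw [e, div_le_one (by positivity)] at h5
        exact h5
      have h7 : D.m.im ^ 2 ≤ C₁ ^ 2 := pow_le_pow_left₀ him0.le him1 2
      have h8 : D.lam * (8 * D.η ^ 2) * S2 ≤
          D.lam * (C₁ ^ 2 * (CI * ξ * (M : ℝ) ^ d / σ ^ 2)) := by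
        refine h6.trans ?_
        calc D.m.im ^ 2 * (M : ℝ) ^ 2 ≤ C₁ ^ 2 * (CI * ξ * (M : ℝ) ^ d / σ ^ 2 * D.lam) :=
              mul_le_mul h7 hDM (by positivity) (by positivity)
          _ = _ := by ring
      have h9 : 8 * D.η ^ 2 * S2 ≤ C₁ ^ 2 * (CI * ξ * (M : ℝ) ^ d / σ ^ 2) := by
        have e : D.lam * (8 * D.η ^ 2) * S2 = D.lam * (8 * D.η ^ 2 * S2) := by ring
        rw [e] at h8
        exact le_of_mul_le_mul_left h8 hDl
      rw [le_div_iff₀ (by positivity)]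
      have h10 : 8 * (S2 * (σ ^ 2 * D.η ^ 2)) ≤ C₁ ^ 2 * CI * (ξ * (M : ℝ) ^ d) := by
        have h11 := mul_le_mul_of_nonneg_right h9 hσ2.le
        have e : C₁ ^ 2 * (CI * ξ * (M : ℝ) ^ d / σ ^ 2) * σ ^ 2 =
            C₁ ^ 2 * CI * (ξ * (M : ℝ) ^ d) := by
          field_simp
        rw [e] at h11
        linarith
      have h12 : 0 ≤ S2 * (σ ^ 2 * D.η ^ 2) := by positivity
      have h13 : 0 ≤ (9 + C₁) * (ξ * (M : ℝ) ^ d) := by positivity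
      have e2 : (9 + C₁ + C₁ ^ 2 * CI) * ξ * (M : ℝ) ^ d = (9 + C₁) * (ξ * (M : ℝ) ^ d) +
        C₁ ^ 2 * CI * (ξ * (M : ℝ) ^ d) := by ring
      rw [e2]
      linarith
  refine (measure_mono hsub).trans ?_
  refine (hU d M D v (adm_mono hAdm (min_le_left _ _)) (by rw [hv, hDT])).trans ?_
  apply ENNReal.ofReal_le_ofReal
  -- the numbers
  obtain ⟨ℓ, hℓ⟩ : ∃ ℓ, ℓ = 1 + Real.log (D.w / D.η) := ⟨_, rfl⟩
  rw [← hℓ]
  have hw0 : D.η ≤ D.w := by
    unfold Dat.w Dat.kp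
    have h1 := hAdm.hT.1
    have h2 := hAdm.hm.1
    have : 0 ≤ (D.T - 0) * D.m.im := mul_nonneg (by linarith) (by linarith)
    linarith
  have hDw : D.w ≤ 1 := hAdm.hT.2.2.1
  have hℓ1 : 1 ≤ ℓ := by
    rw [hℓ]
    have : 0 ≤ Real.log (D.w / D.η) := Real.log_nonneg (by rw [le_div_iff₀ hη0]; linarith)
    linarith
  have hsθ0 : 1 ≤ s ^ (-θ) := Real.one_le_rpow_of_pos_of_le_one_of_nonpos hs0 hs1' (by linarith)
  have hℓ2 : ℓ ≤ (d + 1) * s ^ (-θ) := by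
    rw [hℓ]
    have h1 : Real.log (D.w / D.η) ≤ Real.log (1 / D.η) := by
      apply Real.log_le_log (div_pos (by linarith) hη0)
      exact div_le_div_of_nonneg_right hDw hη0.le
    have h2 : Real.log (1 / D.η) ≤ d * s ^ (-θ) := by
      have h3 : 1 / D.η ≤ (M : ℝ) ^ d := by
        rw [div_le_iff₀ hη0]
        have h4 : 1 ≤ s ^ (-ε) := Real.one_le_rpow_of_pos_of_le_one_of_nonpos hs0 hs1'
          (by linarith)
        linarith
      have h5 : Real.log (1 / D.η) ≤ Real.log ((M : ℝ) ^ d) :=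
        Real.log_le_log (by positivity) h3
      rw [Real.log_pow] at h5
      have h6 : Real.log M ≤ s ^ (-θ) := by
        rw [Real.log_le_iff_le_exp hMpos]
        exact hM2
      have h7 : (d : ℝ) * Real.log M ≤ d * s ^ (-θ) :=
        mul_le_mul_of_nonneg_left h6 (by linarith)
      linarith
    have h8 : (d + 1) * s ^ (-θ) = d * s ^ (-θ) + s ^ (-θ) := by ring
    rw [h8]
    linarith
  have hsi : 1 ≤ 1 / s := by rw [le_div_iff₀ hs0]; linarith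
  have haN : CU * D.aN * ℓ ≤ 1 := by
    have hsθ := Real.rpow_nonneg hs0.le (4 * θ)
    have h1 : CU * D.aN * ℓ ≤ CU * (CI * s ^ (4 * θ)) * ((d + 1) * s ^ (-θ)) := by
      have h2 : CU * D.aN ≤ CU * (CI * s ^ (4 * θ)) :=
        mul_le_mul_of_nonneg_left hDa (by linarith)
      calc CU * D.aN * ℓ ≤ CU * (CI * s ^ (4 * θ)) * ℓ :=
            mul_le_mul_of_nonneg_right h2 (by linarith)
        _ ≤ _ := mul_le_mul_of_nonneg_left hℓ2 (by positivity)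
    have h3 : CU * (CI * s ^ (4 * θ)) * ((d + 1) * s ^ (-θ)) =
        (d + 1) * CU * CI * s ^ (3 * θ) := by
      have e : s ^ (3 * θ) = s ^ (4 * θ) * s ^ (-θ) := by
        rw [← Real.rpow_add hs0]
        congr 1
        ring
      rw [e]
      ring
    linarith
  have hexp : Real.exp (CU * D.aN * ℓ) ≤ 3 := by
    refine (Real.exp_le_exp.2 haN).trans ?_
    have := Real.exp_one_lt_d9
    linarith
  have hsθ1 : s ^ (4 * θ) ≤ 1 := Real.rpow_le_one hs0.le hs1' (by linarith)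
  have hp1 : (D.p : ℝ) ≤ 1 / s := by
    have h1 : s ^ (-1 : ℝ) = 1 / s := by rw [Real.rpow_neg_one, one_div]
    rwa [h1] at hDp
  have hw1 : 0 < D.w := by linarith
  have hδ0 := hAdm.hδ.1
  have he0 : 0 ≤ D.e₀ - 1 := by
    have h1 := hAdm.he.1
    have h2 := hAdm.he.2.1
    linarith
  have he1 : 0 < D.e₁ := by
    have h1 := hAdm.he.1
    linarith
  obtain ⟨-, -, hL0, hN0, hπ0⟩ := hAdm.hj
  have hL0' : 0 < D.L₀ := by linarith
  have hN0' : 0 < D.N := by linarith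
  have haN0 : 0 ≤ D.aN := by
    unfold Dat.aN Dat.ch Dat.h
    positivity
  have haN2 : 1 + D.aN + D.p ≤ (2 + CI) * (1 / s) := by
    have h1 : D.aN ≤ CI := hDa.trans (mul_le_of_le_one_right hCI0.le hsθ1)
    have h2 : CI ≤ CI * (1 / s) := le_mul_of_one_le_right hCI0.le hsi
    linarith only [h1, h2, hsi, hp1]
  have hℓ3 : ℓ ≤ (d + 1) * (1 / s) := by
    have h1 : s ^ (-θ) ≤ s ^ (-1 : ℝ) :=
      Real.rpow_le_rpow_of_exponent_ge hs0 hs1' (by linarith)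
    have h2 : s ^ (-1 : ℝ) = 1 / s := by rw [Real.rpow_neg_one, one_div]
    rw [h2] at h1
    exact hℓ2.trans (mul_le_mul_of_nonneg_left h1 (by positivity))
  have hbN0 : 0 ≤ D.bN := by
    unfold Dat.bN
    positivity
  have hsi0 : 0 < 1 / s := by positivity
  have hmid : CU * (1 + D.aN + D.p) * ℓ * D.bN ≤
      CU * ((2 + CI) * (1 / s)) * ((d + 1) * (1 / s)) * Real.exp (-(s ^ (-(4 * θ)))) := by
    apply mul_le_mul _ hDb hbN0 (by positivity)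
    apply mul_le_mul _ hℓ3 (by linarith) (by positivity)
    exact mul_le_mul_of_nonneg_left haN2 hCU0.le
  have hmid0 : 0 ≤ CU * (1 + D.aN + D.p) * ℓ * D.bN := by positivity
  -- the exponentials
  have hy0 : 0 < s ^ (-(2 * θ)) := Real.rpow_pos_of_pos hs0 _
  have hyx : s ^ (-(4 * θ)) = s ^ (-(2 * θ)) * s ^ (-(2 * θ)) := by
    rw [← Real.rpow_add hs0]
    congr 1
    ring
  have hy1 : 8 / 7 ≤ s ^ (-(2 * θ)) := by
    rw [one_mul] at hn2
    have h1 : s ^ (2 * θ) * s ^ (-(2 * θ)) = 1 := by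
      rw [← Real.rpow_add hs0, add_neg_cancel, Real.rpow_zero]
    have h2 := mul_le_mul_of_nonneg_right hn2 hy0.le
    linarith only [h1, h2]
  have hee : Real.exp (-(s ^ (-(4 * θ)))) ≤
      Real.exp (-(s ^ (-(4 * θ)) / 8)) * Real.exp (-(s ^ (-(2 * θ)))) := by
    rw [← Real.exp_add]
    apply Real.exp_le_exp.2
    rw [hyx]
    have h2 := mul_le_mul_of_nonneg_left hy1 hy0.le
    linarith only [h2]
  have hz3 : 0 ≤ 3 * D.zt0 := by
    rw [hDz]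
    positivity
  have hfirst : 3 * (CU * (1 + D.aN + D.p) * ℓ * D.bN) ≤ Real.exp (-(s ^ (-(2 * θ)))) := by
    calc 3 * (CU * (1 + D.aN + D.p) * ℓ * D.bN) ≤
        3 * (CU * ((2 + CI) * (1 / s)) * ((d + 1) * (1 / s)) *
          (Real.exp (-(s ^ (-(4 * θ)) / 8)) * Real.exp (-(s ^ (-(2 * θ)))))) := by
          apply mul_le_mul_of_nonneg_left _ (by norm_num)
          exact hmid.trans (mul_le_mul_of_nonneg_left hee (by positivity))
      _ = (3 * CU * (2 + CI) * (d + 1) * (s ^ (-(2 : ℝ)) * Real.exp (-(s ^ (-(4 * θ)) / 8)))) *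
          Real.exp (-(s ^ (-(2 * θ)))) := by
          have e1 : s ^ (-(2 : ℝ)) = (1 / s) * (1 / s) := by
            have e2 : (-(2 : ℝ)) = -1 + -1 := by norm_num
            rw [e2, Real.rpow_add hs0, Real.rpow_neg_one, one_div]
          rw [e1]
          ring
      _ ≤ 1 * Real.exp (-(s ^ (-(2 * θ)))) :=
          mul_le_mul_of_nonneg_right hn3 (Real.exp_nonneg _)
      _ = Real.exp (-(s ^ (-(2 * θ)))) := one_mul _
  have hlast : 9 / ξ ≤ (9 + C₁ + C₁ ^ 2 * CI) / ξ := by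
    apply div_le_div_of_nonneg_right _ hξ0.le
    have : 0 ≤ C₁ ^ 2 * CI := by positivity
    linarith
  calc Real.exp (CU * D.aN * ℓ) * (CU * (1 + D.aN + D.p) * ℓ * D.bN + 3 * D.zt0) ≤
      3 * (CU * (1 + D.aN + D.p) * ℓ * D.bN + 3 * D.zt0) :=
        mul_le_mul_of_nonneg_right hexp (by linarith)
    _ = 3 * (CU * (1 + D.aN + D.p) * ℓ * D.bN) + 9 / ξ := by
        rw [hDz]
        ring
    _ ≤ Real.exp (-(s ^ (-(2 * θ)))) + (9 + C₁ + C₁ ^ 2 * CI) / ξ := add_le_add hfirst hlast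
    _ = (9 + C₁ + C₁ ^ 2 * CI) / ξ + Real.exp (-(s ^ (-(2 * θ)))) := add_comm _ _

end Pool.Agent.LE.QZ.H13
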